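import Pool.Agent.Y760.ST.Stm2

/-!
# Different Laurent monomials have different coefficients at a prime power
-/

set_option autoImplicit false

namespace Pool.Agent.Y406.ST

open Pool.Agent.Y760.ST (sh dil lau SepStmt)

/-- level `k` at the prime `p` -/
def Lev (p k : ℕ) (V : ArithmeticFunction ℚ) : Prop :=
  V 1 = 1 ∧ ∀ j, 0 < j → j < k → V (p ^ j) = 0

lemma mul_lev {p k : ℕ} (hp : p.Prime) (hk : 1 ≤ k) {F V : ArithmeticFunction ℚ} (hF : F 1 = 1)
    (hV : Lev p k V) : (F * V) (p ^ k) = F (p ^ k) + V (p ^ k) := by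
  have hpk : 1 < p ^ k := Nat.one_lt_pow (by omega) hp.one_lt
  rw [ArithmeticFunction.mul_apply, Finset.sum_eq_add (p ^ k, 1) (1, p ^ k)]
  · rw [hV.1, hF, mul_one, one_mul]
  · intro h
    have := (Prod.mk.inj h).1
    omega
  · rintro ⟨c1, c2⟩ hc ⟨h1, h2⟩
    rw [Nat.mem_divisorsAntidiagonal] at hc
    obtain ⟨h3, -⟩ := hc
    simp only at h3
    obtain ⟨j, hj, rfl⟩ := (Nat.dvd_prime_pow hp).1 (Dvd.intro_left c1 h3)
    have hj0 : j ≠ 0 := by
      rintro rfl
      apply h1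
      rw [pow_zero, mul_one] at h3
      rw [h3, pow_zero]
    have hjk : j ≠ k := by
      rintro rfl
      apply h2
      have : c1 = 1 := by
        have h4 : c1 * p ^ j = 1 * p ^ j := by rw [h3, one_mul]
        exact Nat.eq_of_mul_eq_mul_right (by omega) h4
      rw [this]
    simp only
    rw [hV.2 j (by omega) (by omega), mul_zero]
  · intro h
    exfalso
    apply h
    rw [Nat.mem_divisorsAntidiagonal]
    exact ⟨by simp, by omega⟩
  · intro h
    exfalso
    apply h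
    rw [Nat.mem_divisorsAntidiagonal]
    exact ⟨by simp, by omega⟩

lemma Lev.mono {p k k' : ℕ} {V : ArithmeticFunction ℚ} (h : Lev p k V) (hk : k' ≤ k) : Lev p k' V :=
  ⟨h.1, fun j h0 h1 => h.2 j h0 (by omega)⟩

lemma Lev.one {p k : ℕ} (hp : p.Prime) : Lev p k (1 : ArithmeticFunction ℚ) := by
  refine ⟨ArithmeticFunction.one_one, fun j h0 _ => ?_⟩
  exact ArithmeticFunction.one_apply_ne (Nat.one_lt_pow (by omega) hp.one_lt).ne'

lemma Lev.mul {p k : ℕ} (hp : p.Prime) {V W : ArithmeticFunction ℚ} (hV : Lev p k V)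
    (hW : Lev p k W) : Lev p k (V * W) := by
  refine ⟨?_, fun j h0 h1 => ?_⟩
  · rw [ArithmeticFunction.mul_apply_one, hV.1, hW.1, mul_one]
  · rw [mul_lev hp h0 hV.1 (hW.mono h1.le), hV.2 j h0 h1, hW.2 j h0 h1, add_zero]

lemma Lev.pow {p k : ℕ} (hp : p.Prime) {V : ArithmeticFunction ℚ} (hV : Lev p k V) (n : ℕ) :
    Lev p k (V ^ n) := by
  induction n with
  | zero =>
    rw [pow_zero]
    exact Lev.one hp
  | succ n ih =>
    rw [pow_succ]
    exact ih.mul hp hV

lemma pow_val {p k : ℕ} (hp : p.Prime) (hk : 1 ≤ k) {V : ArithmeticFunction ℚ} (hV : Lev p k V)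
    (n : ℕ) : (V ^ n) (p ^ k) = n * V (p ^ k) := by
  induction n with
  | zero =>
    rw [pow_zero, ArithmeticFunction.one_apply_ne (Nat.one_lt_pow (by omega) hp.one_lt).ne']
    simp
  | succ n ih =>
    rw [pow_succ, mul_lev hp hk (hV.pow hp n).1 hV, ih]
    push_cast
    ring

lemma Lev.prod {p k : ℕ} (hp : p.Prime) {ι : Type} (s : Finset ι) (V : ι → ArithmeticFunction ℚ)
    (hV : ∀ i ∈ s, Lev p k (V i)) : Lev p k (∏ i ∈ s, V i) := by
  classical
  induction s using Finset.induction_on with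
  | empty =>
    rw [Finset.prod_empty]
    exact Lev.one hp
  | @insert a s ha ih =>
    rw [Finset.prod_insert ha]
    exact (hV a (Finset.mem_insert_self _ _)).mul hp
      (ih fun i hi => hV i (Finset.mem_insert_of_mem hi))

lemma prod_val {p k : ℕ} (hp : p.Prime) (hk : 1 ≤ k) {ι : Type} (s : Finset ι)
    (V : ι → ArithmeticFunction ℚ) (hV : ∀ i ∈ s, Lev p k (V i)) :
    (∏ i ∈ s, V i) (p ^ k) = ∑ i ∈ s, V i (p ^ k) := by
  classical
  induction s using Finset.induction_on with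
  | empty =>
    rw [Finset.prod_empty, Finset.sum_empty,
      ArithmeticFunction.one_apply_ne (Nat.one_lt_pow (by omega) hp.one_lt).ne']
  | @insert a s ha ih =>
    rw [Finset.prod_insert ha, Finset.sum_insert ha, mul_lev hp hk
      (hV a (Finset.mem_insert_self _ _)).1
      (Lev.prod hp s V fun i hi => hV i (Finset.mem_insert_of_mem hi)),
      ih fun i hi => hV i (Finset.mem_insert_of_mem hi)]

lemma dil_apply (a : ℕ) (u : ArithmeticFunction ℚ) (k : ℕ) :
    dil a u k = ∑ l ∈ Finset.range (k + 1), if l ^ a = k then u l else 0 := rfl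

lemma dil_pow {p a : ℕ} (u : ArithmeticFunction ℚ) (ha : 1 ≤ a) (l0 : ℕ) (hl : 1 ≤ l0) :
    dil a u (l0 ^ a) = u l0 := by
  rw [dil_apply, Finset.sum_eq_single l0]
  · rw [if_pos rfl]
  · intro l _ hl
    rw [if_neg fun h => hl (Nat.pow_left_injective (by omega) h)]
  · intro h
    exfalso
    apply h
    rw [Finset.mem_range]
    have : l0 ^ 1 ≤ l0 ^ a := Nat.pow_le_pow_right hl ha
    rw [pow_one] at this
    omega

lemma dil_lev {p : ℕ} (hp : p.Prime) (a : ℕ) (u : ArithmeticFunction ℚ) (hu : u 1 = 1) :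
    Lev p (a + 1) (dil (a + 1) u) := by
  refine ⟨?_, fun j h0 h1 => ?_⟩
  · have h2 := dil_pow (p := p) u (by omega : 1 ≤ a + 1) 1 le_rfl
    rw [one_pow] at h2
    rw [h2, hu]
  · rw [dil_apply]
    refine Finset.sum_eq_zero fun l _ => ?_
    rw [if_neg]
    intro h
    have h2 : l ∣ p ^ j := by
      rw [← h]
      exact dvd_pow_self l (by omega)
    obtain ⟨i, hi, rfl⟩ := (Nat.dvd_prime_pow hp).1 h2
    rw [← pow_mul] at h
    have h3 := Nat.pow_right_injective hp.two_le h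
    rcases Nat.eq_zero_or_pos i with h4 | h4
    · rw [h4, zero_mul] at h3
      omega
    · have : a + 1 ≤ i * (a + 1) := Nat.le_mul_of_pos_left _ h4
      omega

/-- different vectors of exponents -/
lemma sepZ (h : ℕ) (e e' : Fin h → ℤ) (hne : e ≠ e') (p : ℕ) (hp : p.Prime)
    (hd : ∑ j, (|e j| + |e' j|) < p) :
    ∑ j : Fin h, (e j : ℚ) / (p : ℚ) ^ (j : ℕ) ≠ ∑ j : Fin h, (e' j : ℚ) / (p : ℚ) ^ (j : ℕ) := by
  classical
  intro heq
  have hex : (Finset.univ.filter (fun j : Fin h => e j ≠ e' j)).Nonempty := by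
    by_contra hcon
    rw [Finset.not_nonempty_iff_eq_empty] at hcon
    apply hne
    funext j
    by_contra hj
    have : j ∈ Finset.univ.filter (fun j : Fin h => e j ≠ e' j) := by simp [hj]
    rw [hcon] at this
    simp at this
  obtain ⟨J, hJ, hmax⟩ := Finset.exists_max_image _ (fun j : Fin h => (j : ℕ)) hex
  have hJne : e J ≠ e' J := (Finset.mem_filter.1 hJ).2
  have hbig : ∀ j : Fin h, (J : ℕ) < j → e j = e' j := by
    intro j hj
    by_contra hcon
    have := hmax j (Finset.mem_filter.2 ⟨Finset.mem_univ _, hcon⟩)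
    omega
  have hp0 : (p : ℚ) ≠ 0 := by exact_mod_cast hp.ne_zero
  have h1 : ∑ j : Fin h, ((e j : ℚ) - (e' j : ℚ)) * (p : ℚ) ^ ((J : ℕ) - (j : ℕ)) = 0 := by
    have h2 : ∑ j : Fin h, ((e j : ℚ) - (e' j : ℚ)) * (p : ℚ) ^ ((J : ℕ) - (j : ℕ)) =
        (p : ℚ) ^ (J : ℕ) * (∑ j : Fin h, (e j : ℚ) / (p : ℚ) ^ (j : ℕ) -
          ∑ j : Fin h, (e' j : ℚ) / (p : ℚ) ^ (j : ℕ)) := by
      rw [← Finset.sum_sub_distrib, Finset.mul_sum]
      refine Finset.sum_congr rfl fun j _ => ?_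
      rcases lt_or_ge (J : ℕ) (j : ℕ) with hj | hj
      · rw [hbig j hj]
        ring
      · have h3 : (p : ℚ) ^ (J : ℕ) = (p : ℚ) ^ ((J : ℕ) - (j : ℕ)) * (p : ℚ) ^ (j : ℕ) := by
          rw [← pow_add]
          congr 1
          omega
        rw [h3]
        field_simp
    rw [h2, heq, sub_self, mul_zero]
  have h2 : ∑ j : Fin h, (e j - e' j) * (p : ℤ) ^ ((J : ℕ) - (j : ℕ)) = 0 := by
    exact_mod_cast h1
  have h3 : (p : ℤ) ∣ (e J - e' J) := by
    rw [← Finset.add_sum_erase _ _ (Finset.mem_univ J)] at h2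
    rw [Nat.sub_self, pow_zero, mul_one] at h2
    have h4 : (p : ℤ) ∣ ∑ j ∈ Finset.univ.erase J,
        (e j - e' j) * (p : ℤ) ^ ((J : ℕ) - (j : ℕ)) := by
      refine Finset.dvd_sum fun j hj => ?_
      have hj' : j ≠ J := (Finset.mem_erase.1 hj).1
      rcases lt_or_ge (J : ℕ) (j : ℕ) with hj2 | hj2
      · rw [hbig j hj2, sub_self, zero_mul]
        exact dvd_zero _
      · have hlt : (j : ℕ) < J := lt_of_le_of_ne hj2 fun h => hj' (Fin.ext h)
        exact Dvd.dvd.mul_left (dvd_pow_self _ (by omega)) _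
    have h5 := (Int.dvd_add_left h4).1 (by rw [h2]; exact dvd_zero _)
    exact h5
  have hb1 : |e J| + |e' J| < p := lt_of_le_of_lt
    (Finset.single_le_sum (f := fun j => |e j| + |e' j|) (fun _ _ => by positivity)
    (Finset.mem_univ J)) hd
  have h6 : e J - e' J = 0 := by
    apply Int.eq_zero_of_abs_lt_dvd h3
    exact (abs_sub _ _).trans_lt hb1
  apply hJne
  omega

/-- the factor with the dilation `a + 1` -/
noncomputable def WW (f g : ArithmeticFunction ℚ) (a h : ℕ) (ε : Fin h → ℤ) : ArithmeticFunction ℚ :=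
  ∏ b : Fin h, (dil (a + 1) (sh f b) ^ (ε b).toNat * dil (a + 1) (sh g b) ^ (-(ε b)).toNat)

lemma sh_one (f : ArithmeticFunction ℚ) (hf : f 1 = 1) (b : ℕ) : sh f b 1 = 1 := by
  have h1 : sh f b 1 = if (1 : ℕ) = 0 then 0 else f 1 / ((1 : ℕ) : ℚ) ^ b := rfl
  rw [h1, if_neg one_ne_zero, hf]
  simp

lemma sh_p (f : ArithmeticFunction ℚ) {p : ℕ} (hp : p.Prime) (b : ℕ) :
    sh f b p = f p / (p : ℚ) ^ b := by
  have h1 : sh f b p = if p = 0 then 0 else f p / (p : ℚ) ^ b := rfl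
  rw [h1, if_neg hp.ne_zero]

lemma WW_lev {f g : ArithmeticFunction ℚ} (hf : f 1 = 1) (hg : g 1 = 1) {p : ℕ} (hp : p.Prime)
    (a h : ℕ) (ε : Fin h → ℤ) : Lev p (a + 1) (WW f g a h ε) := by
  unfold WW
  refine Lev.prod hp _ _ fun b _ => ?_
  exact ((dil_lev hp a _ (sh_one f hf b)).pow hp _).mul hp
    ((dil_lev hp a _ (sh_one g hg b)).pow hp _)

lemma WW_val {f g : ArithmeticFunction ℚ} (hf : f 1 = 1) (hg : g 1 = 1) {p : ℕ} (hp : p.Prime)
    {κ : ℚ} (h1 : f p = κ) (h2 : g p = -κ) (a h : ℕ) (ε : Fin h → ℤ) :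
    WW f g a h ε (p ^ (a + 1)) = κ * ∑ b : Fin h, (ε b : ℚ) / (p : ℚ) ^ (b : ℕ) := by
  unfold WW
  have L1 : ∀ b : Fin h, Lev p (a + 1) (dil (a + 1) (sh f b)) :=
    fun b => dil_lev hp a _ (sh_one f hf b)
  have L2 : ∀ b : Fin h, Lev p (a + 1) (dil (a + 1) (sh g b)) :=
    fun b => dil_lev hp a _ (sh_one g hg b)
  rw [prod_val hp (by omega) _ _ fun b _ => ((L1 b).pow hp _).mul hp ((L2 b).pow hp _),
    Finset.mul_sum]
  refine Finset.sum_congr rfl fun b _ => ?_
  rw [mul_lev hp (by omega) ((L1 b).pow hp _).1 ((L2 b).pow hp _), pow_val hp (by omega) (L1 b),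
    pow_val hp (by omega) (L2 b), dil_pow (p := p) _ (by omega) p hp.one_le,
    dil_pow (p := p) _ (by omega) p hp.one_le, sh_p f hp, sh_p g hp, h1, h2]
  have h3 : (ε b : ℚ) = ((ε b).toNat : ℚ) - ((-(ε b)).toNat : ℚ) := by
    have h4 : (ε b : ℤ) = ((ε b).toNat : ℤ) - ((-(ε b)).toNat : ℤ) := by omega
    have h5 := congrArg (Int.cast : ℤ → ℚ) h4
    push_cast at h5
    exact h5
  rw [h3]
  ring

lemma WW_zero {f g : ArithmeticFunction ℚ} (hf : f 1 = 1) (hg : g 1 = 1) {p : ℕ} (hp : p.Prime)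
    {a k h : ℕ} (hk : 1 ≤ k) (hka : k < a + 1) (ε : Fin h → ℤ) : WW f g a h ε (p ^ k) = 0 :=
  (WW_lev hf hg hp a h ε).2 k (by omega) hka

theorem sep2 : SepStmt := by
  classical
  intro f g hf hg κ hκ h1 h2 A h e e' hne
  have hex : (Finset.univ.filter (fun a : Fin A => e a ≠ e' a)).Nonempty := by
    by_contra hcon
    rw [Finset.not_nonempty_iff_eq_empty] at hcon
    apply hne
    funext a
    by_contra ha
    have : a ∈ Finset.univ.filter (fun a : Fin A => e a ≠ e' a) := by simp [ha]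
    rw [hcon] at this
    simp at this
  obtain ⟨a0, ha0, hmin⟩ := Finset.exists_min_image _ (fun a : Fin A => (a : ℕ)) hex
  have hane : e a0 ≠ e' a0 := (Finset.mem_filter.1 ha0).2
  have hsm : ∀ a : Fin A, a < a0 → e a = e' a := by
    intro a ha
    by_contra hcon
    have h3 := hmin a (Finset.mem_filter.2 ⟨Finset.mem_univ _, hcon⟩)
    have h4 : (a : ℕ) < a0 := ha
    omega
  have hA : (a0 : ℕ) < A := a0.isLt
  refine ⟨(a0 : ℕ) + 1, (∑ j, (|e a0 j| + |e' a0 j|)).toNat, by omega, by omega, ?_⟩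
  intro p hp hlp
  have hd : ∑ j, (|e a0 j| + |e' a0 j|) < (p : ℤ) := by
    have h3 := Int.self_le_toNat (∑ j, (|e a0 j| + |e' a0 j|))
    have h4 : (((∑ j, (|e a0 j| + |e' a0 j|)).toNat : ℕ) : ℤ) < p := by exact_mod_cast hlp
    omega
  have hval : ∀ ε : Fin A → Fin h → ℤ, lau f g A h ε (p ^ ((a0 : ℕ) + 1)) =
      (∏ a ∈ Finset.univ.filter (fun a : Fin A => a < a0), WW f g a h (ε a)) (p ^ ((a0 : ℕ) + 1)) +
        κ * ∑ b : Fin h, (ε a0 b : ℚ) / (p : ℚ) ^ (b : ℕ) := by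
    intro ε
    have e1 : lau f g A h ε = (∏ a ∈ Finset.univ.filter (fun a : Fin A => a < a0),
        WW f g a h (ε a)) * ∏ a ∈ Finset.univ.filter (fun a : Fin A => ¬ a < a0),
        WW f g a h (ε a) := by
      rw [Finset.prod_filter_mul_prod_filter_not]
      rfl
    have hL : ∀ a ∈ Finset.univ.filter (fun a : Fin A => ¬ a < a0),
        Lev p ((a0 : ℕ) + 1) (WW f g a h (ε a)) := by
      intro a ha
      have h3 := (Finset.mem_filter.1 ha).2
      have h4 : (a0 : ℕ) ≤ a := by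
        have h5 : a0 ≤ a := not_lt.1 h3
        exact h5
      exact (WW_lev hf.1 hg.1 hp a h (ε a)).mono (by omega)
    have hF : (∏ a ∈ Finset.univ.filter (fun a : Fin A => a < a0), WW f g a h (ε a)) 1 = 1 :=
      (Lev.prod (k := 1) hp (Finset.univ.filter (fun a : Fin A => a < a0))
        (fun a : Fin A => WW f g a h (ε a))
        fun (a : Fin A) _ => (WW_lev hf.1 hg.1 hp (a : ℕ) h (ε a)).mono (by omega)).1
    rw [e1, mul_lev hp (by omega) hF (Lev.prod hp _ _ hL), prod_val hp (by omega) _ _ hL]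
    congr 1
    rw [Finset.sum_eq_single a0]
    · exact WW_val hf.1 hg.1 hp (h1 p hp) (h2 p hp) a0 h (ε a0)
    · intro a ha hne0
      have h3 := (Finset.mem_filter.1 ha).2
      have h4 : (a0 : ℕ) < a := by
        have h5 : a0 < a := lt_of_le_of_ne (not_lt.1 h3) (Ne.symm hne0)
        exact h5
      exact WW_zero hf.1 hg.1 hp (by omega) (by omega) (ε a)
    · intro hcon
      exfalso
      apply hcon
      rw [Finset.mem_filter]
      exact ⟨Finset.mem_univ _, lt_irrefl _⟩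
  rw [hval, hval]
  intro hcon
  have e2 : ∏ a ∈ Finset.univ.filter (fun a : Fin A => a < a0), WW f g a h (e a) =
      ∏ a ∈ Finset.univ.filter (fun a : Fin A => a < a0), WW f g a h (e' a) := by
    refine Finset.prod_congr rfl fun a ha => ?_
    rw [hsm a (Finset.mem_filter.1 ha).2]
  rw [e2] at hcon
  exact sepZ h (e a0) (e' a0) hane p hp hd (mul_left_cancel₀ hκ (add_left_cancel hcon))

end Pool.Agent.Y406.ST
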